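import Pool.Agent.H54.WB.TargetsA

/-!
# Row VKY of wdb_modules: the coordinates of the cells
-/

set_option autoImplicit false

namespace Pool.Agent.H98.WB

open Pool.Agent.H54.WB

theorem euclid (p a r b t : ℕ) (hr : r < p) (ht : t < p) :
    p * a + r = p * b + t ↔ a = b ∧ r = t := by
  constructor
  · intro h
    have hp : 0 < p := by omega
    have h1 : (p * a + r) / p = a := by
      rw [Nat.mul_add_div hp, Nat.div_eq_of_lt hr, add_zero]
    have h2 : (p * b + t) / p = b := by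
      rw [Nat.mul_add_div hp, Nat.div_eq_of_lt ht, add_zero]
    have h3 : a = b := by rw [← h1, ← h2, h]
    subst h3
    exact ⟨rfl, Nat.add_left_cancel h⟩
  · rintro ⟨rfl, rfl⟩
    rfl

theorem euclid_suc (p a r b t : ℕ) (hr : r < p) (ht : t < p) :
    ((t = r + 1 ∧ a = b) ∨ (r + 1 = p ∧ t = 0 ∧ b = a + 1)) ↔ p * b + t = p * a + r + 1 := by
  constructor
  · rintro (⟨rfl, rfl⟩ | ⟨rfl, rfl, rfl⟩)
    · ring
    · ring
  · intro h
    rcases Nat.lt_or_ge (r + 1) p with h1 | h1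
    · left
      have h2 : p * b + t = p * a + (r + 1) := by omega
      have h3 := (euclid p b t a (r + 1) ht h1).1 h2
      exact ⟨h3.2, h3.1.symm⟩
    · right
      have h2 : r + 1 = p := by omega
      have h3 : p * b + t = p * (a + 1) + 0 := by
        rw [Nat.mul_add, mul_one]
        omega
      have h4 := (euclid p b t (a + 1) 0 ht (by omega)).1 h3
      exact ⟨h2, h4.2, h4.1⟩

theorem pf_VKY (hBIT : T_BIT) (hORD : T_ORD) : T_VKY := by
  intro V Q _ κ U Hh Vv E ro lo ti h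
  have key : ∀ s : Bool, ∃ X : V → ℕ, 0 < {v | ro v = cr s}.ncard ∧
      (∀ z, ro z = 4 → X z < 2 ^ (κ + {v | ro v = cr s}.ncard)) ∧
      (∀ z w, ro z = 4 → ro w = 4 → (VSame E ro lo s z w ↔ X z = X w) ∧
        (VSuc κ E ro lo s z w ↔ X w = X z + 1)) ∧
      (∀ z, ro z = 4 → (VZer E ro lo s z ↔ X z = 0)) ∧
      ∃ z, ro z = 4 ∧ 2 ^ (κ + {v | ro v = cr s}.ncard - 1) ≤ X z := by
    intro s
    obtain ⟨rk, hrk, hbij, -⟩ := hORD V E (fun v => ro v = cr s) (fun v => ro v = 2 + cr s)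
      (h.chn s)
    obtain ⟨b, hb⟩ : ∃ b, b = {v | ro v = cr s}.ncard := ⟨_, rfl⟩
    rw [← hb] at hbij ⊢
    have hlt : ∀ u v, ro u = cr s → ro v = cr s → (BLt E ro s u v ↔ rk u < rk v) := hrk
    have hmaps : ∀ v, ro v = cr s → rk v < b := fun v hv => hbij.1 hv
    have hinj : ∀ u v, ro u = cr s → ro v = cr s → rk u = rk v → u = v := fun u v hu hv he =>
      hbij.2.1 hu hv he
    have hsurj : ∀ i, i < b → ∃ v, ro v = cr s ∧ rk v = i := fun i hi => by
      obtain ⟨v, hv, hvi⟩ := hbij.2.2 (Set.mem_Iio.2 hi)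
      exact ⟨v, hv, hvi⟩
    obtain ⟨A, hA⟩ : ∃ A : V → ℕ → Prop, ∀ z i, A z i ↔ ∃ v, ro v = cr s ∧ rk v = i ∧ E z v :=
      ⟨fun z i => ∃ v, ro v = cr s ∧ rk v = i ∧ E z v, fun _ _ => Iff.rfl⟩
    have hEA : ∀ z v, ro v = cr s → (E z v ↔ A z (rk v)) := by
      intro z v hv
      rw [hA]
      constructor
      · intro h1
        exact ⟨v, hv, rfl, h1⟩
      · rintro ⟨u, hu, he, h1⟩
        rw [hinj u v hu hv he] at h1
        exact h1
    obtain ⟨b1, b2, b3, b4, b5, b6, b7, b8⟩ := hBIT b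
    have hHS : ∀ z w, HSame E ro s z w ↔ bv b (A z) = bv b (A w) := by
      intro z w
      rw [← b2]
      constructor
      · intro h1 i hi
        obtain ⟨v, hv, rfl⟩ := hsurj i hi
        rw [← hEA z v hv, ← hEA w v hv]
        exact h1 v hv
      · intro h1 v hv
        rw [hEA z v hv, hEA w v hv]
        exact h1 _ (hmaps v hv)
    have hHC : ∀ z w, HSuc E ro s z w ↔ bv b (A w) = bv b (A z) + 1 := by
      intro z w
      rw [← b4]
      constructor
      · rintro ⟨v, hv, h1, h2, h3⟩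
        refine ⟨rk v, hmaps v hv, fun h4 => h1 ((hEA z v hv).2 h4), (hEA w v hv).1 h2, ?_, ?_⟩
        · intro j hj hlj
          obtain ⟨u, hu, rfl⟩ := hsurj j hj
          rw [← hEA z u hu, ← hEA w u hu]
          exact (h3 u hu).1 ((hlt v u hv hu).2 hlj)
        · intro j hj
          obtain ⟨u, hu, rfl⟩ := hsurj j (hj.trans (hmaps v hv))
          rw [← hEA z u hu, ← hEA w u hu]
          exact (h3 u hu).2 ((hlt u v hu hv).2 hj)
      · rintro ⟨i, hi, h1, h2, h3, h4⟩
        obtain ⟨v, hv, rfl⟩ := hsurj i hi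
        refine ⟨v, hv, fun h5 => h1 ((hEA z v hv).1 h5), (hEA w v hv).2 h2, fun u hu => ⟨?_, ?_⟩⟩
        · intro h5
          rw [hEA z u hu, hEA w u hu]
          exact h3 _ (hmaps u hu) ((hlt v u hv hu).1 h5)
        · intro h5
          rw [hEA z u hu, hEA w u hu]
          exact h4 _ ((hlt u v hu hv).1 h5)
    have hHZ : ∀ z, (∀ v, ro v = cr s → ¬ E z v) ↔ bv b (A z) = 0 := by
      intro z
      rw [← b5]
      constructor
      · intro h1 i hi h2
        obtain ⟨v, hv, rfl⟩ := hsurj i hi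
        exact h1 v hv ((hEA z v hv).2 h2)
      · intro h1 v hv h2
        exact h1 _ (hmaps v hv) ((hEA z v hv).1 h2)
    have hlow : ∀ z, lo s z < 2 ^ κ := fun z => h.low s z
    have hp : 0 < 2 ^ κ := by positivity
    obtain ⟨z₀, v₀, hz₀, hv₀, hE₀, htop⟩ := h.hi s
    have hb0 : 0 < b := lt_of_le_of_lt (Nat.zero_le _) (hmaps v₀ hv₀)
    refine ⟨fun z => 2 ^ κ * bv b (A z) + lo s z, hb0, ?_, ?_, ?_, z₀, hz₀, ?_⟩
    · intro z _
      have h1 : bv b (A z) + 1 ≤ 2 ^ b := b1 (A z)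
      have h2 : 2 ^ κ * (bv b (A z) + 1) ≤ 2 ^ κ * 2 ^ b := Nat.mul_le_mul_left _ h1
      rw [pow_add]
      have h3 := hlow z
      rw [Nat.mul_add, mul_one] at h2
      change 2 ^ κ * bv b (A z) + lo s z < 2 ^ κ * 2 ^ b
      omega
    · intro z w _ _
      constructor
      · unfold VSame
        rw [hHS, euclid _ _ _ _ _ (hlow z) (hlow w)]
        exact and_comm
      · unfold VSuc
        rw [hHS, hHC]
        exact euclid_suc _ _ _ _ _ (hlow z) (hlow w)
    · intro z _
      unfold VZer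
      rw [hHZ]
      constructor
      · rintro ⟨h1, h2⟩
        simp only
        rw [h1, h2, mul_zero]
      · intro h1
        simp only at h1
        have h2 : 2 ^ κ * bv b (A z) = 0 ∧ lo s z = 0 := by omega
        refine ⟨h2.2, ?_⟩
        rcases Nat.mul_eq_zero.1 h2.1 with h3 | h3
        · omega
        · exact h3
    · have h1 : rk v₀ = b - 1 := by
        by_contra hne
        have h2 : rk v₀ < b - 1 := by
          have := hmaps v₀ hv₀
          omega
        obtain ⟨u, hu, hu1⟩ := hsurj (b - 1) (by omega)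
        exact htop u ((hlt v₀ u hv₀ hu).2 (by omega))
      have h2 : 2 ^ (b - 1) ≤ bv b (A z₀) := by
        refine (b7 (A z₀) (b - 1) (by omega)).1 ⟨rk v₀, hmaps v₀ hv₀, (hEA z₀ v₀ hv₀).1 hE₀, ?_⟩
        omega
      have h3 : 2 ^ (κ + b - 1) = 2 ^ κ * 2 ^ (b - 1) := by
        rw [← pow_add]
        congr 1
        omega
      simp only
      rw [h3]
      exact (Nat.mul_le_mul_left _ h2).trans (Nat.le_add_right _ _)
  choose X hX using key
  exact ⟨X, hX⟩

end Pool.Agent.H98.WB
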